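import Mathlib

/-!
# The `p`-part of the Mazur-Tate conjecture: norm compatible families of modular elements
-/

set_option autoImplicit false

namespace Pool.Agent.Q280.MT

section gen
variable (R : Type) [CommRing R]

/-- the augmentation `∑ a_g g ↦ ∑ a_g` of the group ring -/
noncomputable def augm (G : Type) [CommGroup G] : MonoidAlgebra R G →ₐ[R] R :=
  MonoidAlgebra.lift R R G 1

/-- the augmentation ideal `I` of the group ring -/
noncomputable def aug (G : Type) [CommGroup G] : Ideal (MonoidAlgebra R G) :=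
  RingHom.ker (augm R G)

/-- the homomorphism of group rings given by a homomorphism of groups -/
noncomputable def psh {G C : Type} [CommGroup G] [CommGroup C] (φ : G →* C) :
    MonoidAlgebra R G →ₐ[R] MonoidAlgebra R C :=
  MonoidAlgebra.lift R (MonoidAlgebra R C) G ((MonoidAlgebra.of R C).comp φ)

/-- the regulator `det (g i j - 1)` -/
noncomputable def reg {C : Type} [CommGroup C] {r : ℕ} (g : Fin r → Fin r → C) :
    MonoidAlgebra R C :=
  (Matrix.of fun i j : Fin r => MonoidAlgebra.of R C (g i j) - 1).det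

/-- the element `-(x σ - y + σ⁻¹)` -/
noncomputable def eul {C : Type} [CommGroup C] (x y : R) (σ : C) : MonoidAlgebra R C :=
  -(x • MonoidAlgebra.of R C σ - y • 1 + MonoidAlgebra.of R C σ⁻¹)

/-- `x` lies in `I^r` and `x` is congruent to `y` modulo `I^(r+1)` -/
def Cong {C : Type} [CommGroup C] (r : ℕ) (x y : MonoidAlgebra R C) : Prop :=
  x ∈ aug R C ^ r ∧ x - y ∈ aug R C ^ (r + 1)

end gen

section field
variable (p : ℕ)

/-- the elements of order prime to `p` -/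
def prm (G : Type) [CommGroup G] : Subgroup G where
  carrier := {g | ∃ n : ℕ, n.Coprime p ∧ g ^ n = 1}
  one_mem' := ⟨1, Nat.coprime_one_left p, one_pow 1⟩
  mul_mem' := fun {a b} ⟨n, hn, ha⟩ ⟨m, hm, hb⟩ => ⟨n * m, Nat.Coprime.mul_left hn hm, by
    rw [mul_pow, pow_mul, ha, one_pow, mul_comm n m, pow_mul, hb, one_pow, mul_one]⟩
  inv_mem' := fun {a} ⟨n, hn, ha⟩ => ⟨n, hn, by rw [inv_pow, ha, inv_one]⟩

/-- the Galois group over `ℚ` of the largest subfield `F_m` of `ℚ(ζ_m)` of `p`-power degree, `m` the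
product of the primes in `M` -/
def Gl (M : Finset ℕ) : Type := (ℓ : {x // x ∈ M}) → (ZMod ℓ.1)ˣ ⧸ prm p (ZMod ℓ.1)ˣ

/-- its group structure, by components -/
instance instGl (M : Finset ℕ) : CommGroup (Gl p M) :=
  inferInstanceAs (CommGroup ((ℓ : {x // x ∈ M}) → (ZMod ℓ.1)ˣ ⧸ prm p (ZMod ℓ.1)ˣ))

/-- the restriction `Gal(F_m/ℚ) → Gal(F_m'/ℚ)` for `M' ⊆ M` -/
def rs {M' M : Finset ℕ} (h : M' ⊆ M) : Gl p M →* Gl p M' where
  toFun g ℓ := g ⟨ℓ.1, h ℓ.2⟩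
  map_one' := rfl
  map_mul' _ _ := rfl

/-- `σ` is the class of `ℓ` modulo `q` -/
def IsCls (q ℓ : ℕ) (σ : (ZMod q)ˣ ⧸ prm p (ZMod q)ˣ) : Prop :=
  ∃ u : (ZMod q)ˣ, (u : ZMod q) = ℓ ∧ σ = QuotientGroup.mk u

/-- `σ` is the Frobenius element of the prime `ℓ` (not in `M`) -/
def IsFrb (M : Finset ℕ) (ℓ : ℕ) (σ : Gl p M) : Prop := ∀ q : {x // x ∈ M}, IsCls p q.1 ℓ (σ q)

variable [Fact p.Prime]

/-- the norm relation `ℓ θ_m ↦ -(ℓ σ_ℓ - a_ℓ + σ_ℓ⁻¹) θ_(m/ℓ)`, `σ_ℓ` the Frobenius element of `ℓ` -/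
def NormRel (b : ℤ) (θ : ∀ M : Finset ℕ, MonoidAlgebra ℤ_[p] (Gl p M)) (M : Finset ℕ) (ℓ : ℕ) :
    Prop :=
  ∀ σ : Gl p (M.erase ℓ), IsFrb p (M.erase ℓ) ℓ σ →
    (ℓ : ℤ_[p]) • psh ℤ_[p] (rs p (M.erase_subset ℓ)) (θ M) =
      eul ℤ_[p] (ℓ : ℤ_[p]) (b : ℤ_[p]) σ * θ (M.erase ℓ)

/-- the relation `ℓ c_m = -(ℓ + 1 - a_ℓ) c_(m/ℓ)` -/
def ConstRel (b : ℤ) (c : Finset ℕ → ℤ_[p]) (M : Finset ℕ) (ℓ : ℕ) : Prop :=
  (ℓ : ℤ_[p]) * c M = -((ℓ : ℤ_[p]) + 1 - (b : ℤ_[p])) * c (M.erase ℓ)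

/-- **Modular elements and pairings** of an elliptic curve `E` over `ℚ` of rank `r`, for the conductors
which are products of primes in the set `A`, with `a ℓ = ℓ + 1 - #E(𝔽_ℓ)`: for all finite sets `M`, with the
product `m`, the modular element `θ` in `ℤ_p[Gal(F_m/ℚ)]`, the constant `c = (-1)^ν(m) 𝓛^alg_S` and the
values `h i j` of the pairing at a basis of `E(ℚ)` modulo torsion, in `Gal(F_m/ℚ)`; with the norm
relations `θ_m ↦ - σ_ℓ (1 - (a_ℓ / ℓ) σ_ℓ⁻¹ + (1 / ℓ) σ_ℓ⁻²) θ_(m/ℓ)`, which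
express that `θ_m` is given by the L-values without Euler factors at `m` and the Gauss sums modulo
`m` -/
structure Modular (a : ℕ → ℤ) (A : Set ℕ) (r : ℕ) : Type where
  /-- the modular elements -/
  θ : ∀ M : Finset ℕ, MonoidAlgebra ℤ_[p] (Gl p M)
  /-- the constants -/
  c : Finset ℕ → ℤ_[p]
  /-- the pairing -/
  h : ∀ M : Finset ℕ, Fin r → Fin r → Gl p M
  prime : ∀ ℓ ∈ A, ℓ.Prime ∧ ℓ ≠ p ∧ ¬ (p : ℤ) ∣ ℓ + 1 - a ℓ
  norm : ∀ M : Finset ℕ, (∀ q ∈ M, q ∈ A) → ∀ ℓ ∈ M, NormRel p (a ℓ) θ M ℓ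
  const : ∀ M : Finset ℕ, (∀ q ∈ M, q ∈ A) → ∀ ℓ ∈ M, ConstRel p (a ℓ) c M ℓ
  pair : ∀ M : Finset ℕ, (∀ q ∈ M, q ∈ A) → ∀ ℓ ∈ M, ∀ i j,
    rs p (M.erase_subset ℓ) (h M i j) = h (M.erase ℓ) i j

variable {p} {a : ℕ → ℤ} {A : Set ℕ} {r : ℕ} (D : Modular p a A r)

/-- **The Mazur-Tate statement** for the subfield `F` of `F_m` with Galois group `C` and restriction map
`φ`: the image `θ_F` of `θ_m` lies in `I^r` and is congruent to `c det(h i j - 1)` modulo `I^(r+1)` -/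
def Modular.Holds (M : Finset ℕ) {C : Type} [CommGroup C] (φ : Gl p M →* C) : Prop :=
  Cong ℤ_[p] r (psh ℤ_[p] φ (D.θ M)) (D.c M • reg ℤ_[p] fun i j => φ (D.h M i j))

omit [Fact p.Prime] in
/-- the subfield of `F_m` given by `φ` has conductor `m`: it is not contained in `F_n` for a proper
divisor `n` of `m` -/
def Conductor (M : Finset ℕ) {C : Type} [CommGroup C] (φ : Gl p M →* C) : Prop :=
  ∀ (M' : Finset ℕ) (hM : M' ⊂ M), ¬ ∃ φ' : Gl p M' →* C, φ = φ'.comp (rs p hM.1)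

/-- **Q1 for all fields**: the abelian fields of `p`-power degree with a conductor which is a product of
primes in `A` -/
def Modular.AllFields : Prop :=
  ∀ M : Finset ℕ, (∀ q ∈ M, q ∈ A) → ∀ (C : Type) [CommGroup C] (φ : Gl p M →* C),
    Function.Surjective φ → Conductor M φ → D.Holds M φ

/-- **Q1 for few primes**: the fields `F_m` of conductor `m`, `m` a product of at most `r` primes in `A` -/
def Modular.FewPrimes : Prop :=
  ∀ M : Finset ℕ, (∀ q ∈ M, q ∈ A) → M.card ≤ r → Conductor M (MonoidHom.id (Gl p M)) →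
    D.Holds M (MonoidHom.id (Gl p M))

end field

end Pool.Agent.Q280.MT
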