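import Pool.Agent.Q280.MT.Def

/-!
# Group rings of products and powers of the augmentation ideal
-/

set_option autoImplicit false

namespace Pool.Agent.Q280.MT

section gen
variable {R : Type} [CommRing R]
variable {G C B : Type} [CommGroup G] [CommGroup C] [CommGroup B]

theorem augm_of (g : G) : augm R G (MonoidAlgebra.of R G g) = 1 := by
  unfold augm
  rw [MonoidAlgebra.lift_of]
  rfl

theorem psh_of (φ : G →* C) (g : G) :
    psh R φ (MonoidAlgebra.of R G g) = MonoidAlgebra.of R C (φ g) := by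
  unfold psh
  rw [MonoidAlgebra.lift_of]
  rfl

theorem psh_comp (φ : G →* C) (ψ : C →* B) (x : MonoidAlgebra R G) :
    psh R (ψ.comp φ) x = psh R ψ (psh R φ x) := by
  induction x using MonoidAlgebra.induction_on with
  | of g => rw [psh_of, psh_of, psh_of]; rfl
  | add x y hx hy => rw [map_add, map_add, map_add, hx, hy]
  | smul r x hx => rw [map_smul, map_smul, map_smul, hx]

theorem psh_id (x : MonoidAlgebra R G) : psh R (MonoidHom.id G) x = x := by
  induction x using MonoidAlgebra.induction_on with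
  | of g => rw [psh_of]; rfl
  | add x y hx hy => rw [map_add, hx, hy]
  | smul r x hx => rw [map_smul, hx]

theorem augm_psh (φ : G →* C) (x : MonoidAlgebra R G) : augm R C (psh R φ x) = augm R G x := by
  induction x using MonoidAlgebra.induction_on with
  | of g => rw [psh_of, augm_of, augm_of]
  | add x y hx hy => rw [map_add, map_add, map_add, hx, hy]
  | smul r x hx => rw [map_smul, map_smul, map_smul, hx]

theorem mem_aug {x : MonoidAlgebra R G} : x ∈ aug R G ↔ augm R G x = 0 := RingHom.mem_ker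

theorem of_sub_one_mem (g : G) : MonoidAlgebra.of R G g - 1 ∈ aug R G := by
  rw [mem_aug, map_sub, augm_of, map_one, sub_self]

theorem sub_augm_mem (x : MonoidAlgebra R G) :
    x - algebraMap R (MonoidAlgebra R G) (augm R G x) ∈ aug R G := by
  rw [mem_aug, map_sub, AlgHom.commutes]
  exact sub_self _

theorem psh_mem (φ : G →* C) {s : ℕ} {x : MonoidAlgebra R G} (hx : x ∈ aug R G ^ s) :
    psh R φ x ∈ aug R C ^ s := by
  have h1 : (aug R G).map (psh R φ) ≤ aug R C := by
    rw [Ideal.map_le_iff_le_comap]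
    intro y hy
    rw [Ideal.mem_comap, mem_aug, augm_psh]
    exact mem_aug.1 hy
  have h2 : psh R φ x ∈ (aug R G ^ s).map (psh R φ) := Ideal.mem_map_of_mem _ hx
  rw [Ideal.map_pow] at h2
  exact Ideal.pow_right_mono h1 s h2

/-- elements with invertible augmentation can be cancelled -/
theorem cancel_unit {u x : MonoidAlgebra R G} (hu : IsUnit (augm R G u)) {s : ℕ}
    (h : u * x ∈ aug R G ^ s) : x ∈ aug R G ^ s := by
  induction s with
  | zero => simp
  | succ s ih =>
    have h1 : x ∈ aug R G ^ s := ih (Ideal.pow_le_pow_right (Nat.le_succ s) h)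
    obtain ⟨v, hv⟩ := hu
    have h2 : (u - algebraMap R (MonoidAlgebra R G) (augm R G u)) * x ∈ aug R G ^ (s + 1) := by
      rw [pow_succ']
      exact Ideal.mul_mem_mul (sub_augm_mem u) h1
    have h3 : algebraMap R (MonoidAlgebra R G) (augm R G u) * x ∈ aug R G ^ (s + 1) := by
      have h4 : algebraMap R (MonoidAlgebra R G) (augm R G u) * x =
          u * x - (u - algebraMap R (MonoidAlgebra R G) (augm R G u)) * x := by ring
      rw [h4]
      exact sub_mem h h2
    have h5 : x = algebraMap R (MonoidAlgebra R G) ((v⁻¹ : Rˣ) : R) *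
        (algebraMap R (MonoidAlgebra R G) (augm R G u) * x) := by
      rw [← mul_assoc, ← map_mul, ← hv, Units.inv_mul, map_one, one_mul]
    rw [h5]
    exact Ideal.mul_mem_left _ _ h3

end gen

section lev
variable {R : Type} [CommRing R] {Γ : ℕ → Type} [∀ n, CommGroup (Γ n)]

/-- the product `∏_{ℓ ∈ M} Γ_ℓ` -/
abbrev Prd (Γ : ℕ → Type) (M : Finset ℕ) : Type := (ℓ : {x // x ∈ M}) → Γ ℓ.1

/-- the projection for `M' ⊆ M` -/
def res {M' M : Finset ℕ} (h : M' ⊆ M) : Prd Γ M →* Prd Γ M' where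
  toFun g ℓ := g ⟨ℓ.1, h ℓ.2⟩
  map_one' := rfl
  map_mul' _ _ := rfl

variable {M : Finset ℕ}

/-- the extension by `1` -/
def inc {M' M : Finset ℕ} : Prd Γ M' →* Prd Γ M where
  toFun g ℓ := if h : ℓ.1 ∈ M' then g ⟨ℓ.1, h⟩ else 1
  map_one' := by
    ext ℓ
    by_cases h : ℓ.1 ∈ M'
    · rw [dif_pos h]; rfl
    · rw [dif_neg h]; rfl
  map_mul' a b := by
    ext ℓ
    by_cases h : ℓ.1 ∈ M'
    · simp only [dif_pos h, Pi.mul_apply]
    · simp only [dif_neg h, Pi.mul_apply, mul_one]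

/-- `1` at `ℓ` -/
def kil (ℓ : {x // x ∈ M}) : Prd Γ M →* Prd Γ M := inc.comp (res (Finset.erase_subset ℓ.1 M))

theorem kil_apply (ℓ k : {x // x ∈ M}) (g : Prd Γ M) :
    kil ℓ g k = if k = ℓ then 1 else g k := by
  change (if h : k.1 ∈ M.erase ℓ.1 then g ⟨k.1, _⟩ else 1) = _
  by_cases h : k = ℓ
  · rw [if_pos h, dif_neg]
    rw [h]
    exact Finset.notMem_erase _ _
  · rw [if_neg h, dif_pos]
    rw [Finset.mem_erase]
    exact ⟨fun h1 => h (Subtype.ext h1), k.2⟩

open scoped Classical in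
variable (R) in
/-- the elements `x - 1`, `x` in `Γ_ℓ` -/
noncomputable def gn (a : Σ ℓ : {x // x ∈ M}, Γ ℓ.1) : MonoidAlgebra R (Prd Γ M) :=
  MonoidAlgebra.of R _ (Pi.mulSingle a.1 a.2) - 1

theorem gn_mem (a : Σ ℓ : {x // x ∈ M}, Γ ℓ.1) : gn R a ∈ aug R (Prd Γ M) := of_sub_one_mem _

theorem kil_gn (ℓ : {x // x ∈ M}) (a : Σ ℓ : {x // x ∈ M}, Γ ℓ.1) :
    psh R (kil ℓ) (gn R a) = if a.1 = ℓ then 0 else gn R a := by
  classical
  unfold gn
  rw [map_sub, map_one, psh_of]
  by_cases h : a.1 = ℓ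
  · rw [if_pos h]
    have h1 : kil ℓ (Pi.mulSingle a.1 a.2 : Prd Γ M) = 1 := by
      ext k
      rw [kil_apply]
      by_cases hk : k = ℓ
      · rw [if_pos hk]; rfl
      · rw [if_neg hk, Pi.mulSingle_eq_of_ne (h ▸ hk)]; rfl
    rw [h1, map_one, sub_self]
  · rw [if_neg h]
    have h1 : kil ℓ (Pi.mulSingle a.1 a.2 : Prd Γ M) = Pi.mulSingle a.1 a.2 := by
      ext k
      rw [kil_apply]
      by_cases hk : k = ℓ
      · rw [if_pos hk, hk, Pi.mulSingle_eq_of_ne (Ne.symm h)]
      · rw [if_neg hk]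
    rw [h1]

/-- the products of `s` elements `x - 1` which involve all `ℓ` in `P` -/
def gens (R : Type) [CommRing R] (s : ℕ) (P : Finset {x // x ∈ M}) :
    Set (MonoidAlgebra R (Prd Γ M)) :=
  {y | ∃ L : List (Σ ℓ : {x // x ∈ M}, Γ ℓ.1), L.length = s ∧ (∀ ℓ ∈ P, ∃ a ∈ L, a.1 = ℓ) ∧
    y = (L.map (gn R)).prod}

/-- their combinations -/
noncomputable def Ksp (R : Type) [CommRing R] (s : ℕ) (P : Finset {x // x ∈ M}) :
    Submodule R (MonoidAlgebra R (Prd Γ M)) := Submodule.span R (gens R s P)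

theorem prod_gn_mem (L : List (Σ ℓ : {x // x ∈ M}, Γ ℓ.1)) :
    (L.map (gn R)).prod ∈ aug R (Prd Γ M) ^ L.length := by
  induction L with
  | nil => simp
  | cons a L ih =>
    rw [List.map_cons, List.prod_cons, List.length_cons, pow_succ']
    exact Ideal.mul_mem_mul (gn_mem a) ih

theorem Ksp_le (s : ℕ) (P : Finset {x // x ∈ M}) {x : MonoidAlgebra R (Prd Γ M)}
    (hx : x ∈ Ksp R s P) : x ∈ aug R (Prd Γ M) ^ s := by
  have h1 : Ksp (Γ := Γ) R s P ≤ (aug R (Prd Γ M) ^ s).restrictScalars R := by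
    refine Submodule.span_le.2 ?_
    rintro _ ⟨L, rfl, -, rfl⟩
    exact prod_gn_mem L
  exact h1 hx

theorem Ksp_zero {s : ℕ} {P : Finset {x // x ∈ M}} (h : s < P.card)
    {x : MonoidAlgebra R (Prd Γ M)} (hx : x ∈ Ksp R s P) : x = 0 := by
  classical
  have h1 : gens (Γ := Γ) R s P = ∅ := by
    rw [Set.eq_empty_iff_forall_notMem]
    rintro _ ⟨L, hL, hP, rfl⟩
    have h2 : P ⊆ (L.map Sigma.fst).toFinset := by
      intro ℓ hℓ
      obtain ⟨a, ha, rfl⟩ := hP ℓ hℓ
      rw [List.mem_toFinset, List.mem_map]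
      exact ⟨a, ha, rfl⟩
    have h3 := (Finset.card_le_card h2).trans (List.toFinset_card_le _)
    rw [List.length_map, hL] at h3
    omega
  unfold Ksp at hx
  rw [h1, Submodule.span_empty, Submodule.mem_bot] at hx
  exact hx

/-- the augmentation ideal is spanned by the elements `x - 1` and its square -/
theorem aug_le (x : MonoidAlgebra R (Prd Γ M)) (hx : x ∈ aug R (Prd Γ M)) :
    ∃ k ∈ Ksp R 1 (∅ : Finset {x // x ∈ M}), x - k ∈ aug R (Prd Γ M) ^ 2 := by
  classical
  -- the group elements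
  have hg : ∀ g : Prd Γ M, ∃ k ∈ Ksp R 1 (∅ : Finset {x // x ∈ M}),
      (MonoidAlgebra.of R _ g - 1) - k ∈ aug R (Prd Γ M) ^ 2 := by
    intro g
    have h1 : g = ∏ ℓ : {x // x ∈ M}, Pi.mulSingle ℓ (g ℓ) := (Finset.univ_prod_mulSingle g).symm
    have h2 : ∀ S : Finset {x // x ∈ M}, ∃ k ∈ Ksp R 1 (∅ : Finset {x // x ∈ M}),
        (MonoidAlgebra.of R _ (∏ ℓ ∈ S, Pi.mulSingle ℓ (g ℓ)) - 1) - k ∈
          aug R (Prd Γ M) ^ 2 := by
      intro S
      induction S using Finset.induction_on with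
      | empty =>
        refine ⟨0, zero_mem _, ?_⟩
        rw [Finset.prod_empty, map_one, sub_self, sub_zero]
        exact zero_mem _
      | insert ℓ S hℓ ih =>
        obtain ⟨k, hk, hk2⟩ := ih
        refine ⟨gn R ⟨ℓ, g ℓ⟩ + k, add_mem (Submodule.subset_span ⟨[⟨ℓ, g ℓ⟩], rfl, by simp,
          by simp⟩) hk, ?_⟩
        rw [Finset.prod_insert hℓ, map_mul]
        have h3 : MonoidAlgebra.of R _ (Pi.mulSingle ℓ (g ℓ)) *
            MonoidAlgebra.of R _ (∏ ℓ ∈ S, Pi.mulSingle ℓ (g ℓ)) - 1 - (gn R ⟨ℓ, g ℓ⟩ + k) =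
            gn R ⟨ℓ, g ℓ⟩ * (MonoidAlgebra.of R _ (∏ ℓ ∈ S, Pi.mulSingle ℓ (g ℓ)) - 1) +
            ((MonoidAlgebra.of R _ (∏ ℓ ∈ S, Pi.mulSingle ℓ (g ℓ)) - 1) - k) := by
          unfold gn
          ring
        rw [h3]
        refine add_mem ?_ hk2
        rw [pow_two]
        exact Ideal.mul_mem_mul (gn_mem _) (of_sub_one_mem _)
    obtain ⟨k, hk, hk2⟩ := h2 Finset.univ
    rw [← h1] at hk2
    exact ⟨k, hk, hk2⟩
  have hall : ∀ y : MonoidAlgebra R (Prd Γ M), ∃ k ∈ Ksp R 1 (∅ : Finset {x // x ∈ M}),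
      (y - algebraMap R _ (augm R _ y)) - k ∈ aug R (Prd Γ M) ^ 2 := by
    intro y
    induction y using MonoidAlgebra.induction_on with
    | of g =>
      rw [augm_of, map_one]
      exact hg g
    | add y z hy hz =>
      obtain ⟨k, hk, hk2⟩ := hy
      obtain ⟨l, hl, hl2⟩ := hz
      refine ⟨k + l, add_mem hk hl, ?_⟩
      rw [map_add, map_add]
      have h1 : y + z - (algebraMap R (MonoidAlgebra R (Prd Γ M)) (augm R _ y) +
          algebraMap R _ (augm R _ z)) - (k + l) =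
          (y - algebraMap R _ (augm R _ y) - k) + (z - algebraMap R _ (augm R _ z) - l) := by ring
      rw [h1]
      exact add_mem hk2 hl2
    | smul r y hy =>
      obtain ⟨k, hk, hk2⟩ := hy
      refine ⟨r • k, Submodule.smul_mem _ _ hk, ?_⟩
      have h1 : r • y - algebraMap R _ (augm R _ (r • y)) - r • k =
          algebraMap R _ r * (y - algebraMap R _ (augm R _ y) - k) := by
        rw [map_smul, smul_eq_mul, map_mul, Algebra.smul_def, Algebra.smul_def]
        ring
      rw [h1]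
      exact Ideal.mul_mem_left _ _ hk2
  obtain ⟨k, hk, hk2⟩ := hall x
  rw [mem_aug.1 hx, map_zero, sub_zero] at hk2
  exact ⟨k, hk, hk2⟩

theorem Ksp_mul {s : ℕ} {x y : MonoidAlgebra R (Prd Γ M)}
    (hx : x ∈ Ksp R s (∅ : Finset {x // x ∈ M})) (hy : y ∈ Ksp R 1 (∅ : Finset {x // x ∈ M})) :
    x * y ∈ Ksp R (s + 1) (∅ : Finset {x // x ∈ M}) := by
  unfold Ksp at hx hy
  induction hx using Submodule.span_induction with
  | zero => rw [zero_mul]; exact zero_mem _
  | add a b _ _ ha hb => rw [add_mul]; exact add_mem ha hb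
  | smul r a _ ha => rw [smul_mul_assoc]; exact Submodule.smul_mem _ _ ha
  | mem x hx =>
    obtain ⟨L, hL, -, rfl⟩ := hx
    induction hy using Submodule.span_induction with
    | zero => rw [mul_zero]; exact zero_mem _
    | add a b _ _ ha hb => rw [mul_add]; exact add_mem ha hb
    | smul r a _ ha => rw [mul_smul_comm]; exact Submodule.smul_mem _ _ ha
    | mem y hy =>
      obtain ⟨L', hL', -, rfl⟩ := hy
      refine Submodule.subset_span ⟨L ++ L', ?_, by simp, ?_⟩
      · rw [List.length_append, hL, hL']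
      · rw [List.map_append, List.prod_append]

/-- powers of the augmentation ideal -/
theorem pow_le (s : ℕ) (x : MonoidAlgebra R (Prd Γ M)) (hx : x ∈ aug R (Prd Γ M) ^ s) :
    ∃ k ∈ Ksp R s (∅ : Finset {x // x ∈ M}), x - k ∈ aug R (Prd Γ M) ^ (s + 1) := by
  induction s generalizing x with
  | zero =>
    refine ⟨algebraMap R _ (augm R _ x), ?_, ?_⟩
    · rw [Algebra.algebraMap_eq_smul_one]
      exact Submodule.smul_mem _ _ (Submodule.subset_span ⟨[], rfl, by simp, by simp⟩)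
    · rw [zero_add, pow_one]
      exact sub_augm_mem x
  | succ s ih =>
    rw [pow_succ] at hx
    induction hx using Submodule.mul_induction_on' with
    | mem_mul_mem a ha b hb =>
      obtain ⟨k, hk, hk2⟩ := ih a ha
      obtain ⟨l, hl, hl2⟩ := aug_le b hb
      refine ⟨k * l, Ksp_mul hk hl, ?_⟩
      have h1 : a * b - k * l = (a - k) * b + k * (b - l) := by ring
      rw [h1]
      refine add_mem ?_ ?_
      · rw [pow_succ]
        exact Ideal.mul_mem_mul hk2 hb
      · have h2 := Ideal.mul_mem_mul (Ksp_le s ∅ hk) hl2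
        rw [← pow_add] at h2
        exact h2
    | add a _ b _ ha hb =>
      obtain ⟨k, hk, hk2⟩ := ha
      obtain ⟨l, hl, hl2⟩ := hb
      refine ⟨k + l, add_mem hk hl, ?_⟩
      have h1 : a + b - (k + l) = (a - k) + (b - l) := by ring
      rw [h1]
      exact add_mem hk2 hl2

theorem kil_prod (ℓ : {x // x ∈ M}) (L : List (Σ ℓ : {x // x ∈ M}, Γ ℓ.1)) :
    psh R (kil ℓ) (L.map (gn R)).prod =
      if ∃ a ∈ L, a.1 = ℓ then 0 else (L.map (gn R)).prod := by
  classical
  induction L with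
  | nil => simp
  | cons a L ih =>
    rw [List.map_cons, List.prod_cons, map_mul, ih, kil_gn]
    by_cases h : a.1 = ℓ
    · rw [if_pos h, zero_mul, if_pos ⟨a, List.mem_cons_self, h⟩]
    · rw [if_neg h]
      by_cases h2 : ∃ b ∈ L, b.1 = ℓ
      · rw [if_pos h2, if_pos, mul_zero]
        obtain ⟨b, hb, hb2⟩ := h2
        exact ⟨b, List.mem_cons_of_mem _ hb, hb2⟩
      · rw [if_neg h2, if_neg]
        rintro ⟨b, hb, hb2⟩
        rcases List.mem_cons.1 hb with rfl | hb
        · exact h hb2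
        · exact h2 ⟨b, hb, hb2⟩

theorem Ksp_kil {s : ℕ} {P : Finset {x // x ∈ M}} [DecidableEq {x // x ∈ M}] (ℓ : {x // x ∈ M})
    {x : MonoidAlgebra R (Prd Γ M)} (hx : x ∈ Ksp R s P) :
    x - psh R (kil ℓ) x ∈ Ksp R s (insert ℓ P) := by
  classical
  unfold Ksp at hx
  induction hx using Submodule.span_induction with
  | zero => rw [map_zero, sub_zero]; exact zero_mem _
  | add a b _ _ ha hb =>
    have h1 : a + b - psh R (kil ℓ) (a + b) = (a - psh R (kil ℓ) a) + (b - psh R (kil ℓ) b) := by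
      rw [map_add]; ring
    rw [h1]
    exact add_mem ha hb
  | smul r a _ ha =>
    rw [map_smul, ← smul_sub]
    exact Submodule.smul_mem _ _ ha
  | mem x hx =>
    obtain ⟨L, hL, hP, rfl⟩ := hx
    rw [kil_prod]
    split_ifs with h
    · rw [sub_zero]
      refine Submodule.subset_span ⟨L, hL, fun k hk => ?_, rfl⟩
      rcases Finset.mem_insert.1 hk with rfl | hk
      · exact h
      · exact hP k hk
    · rw [sub_self]
      exact zero_mem _

/-- many primes -/
theorem many {s : ℕ} {x : MonoidAlgebra R (Prd Γ M)} (hx : x ∈ aug R (Prd Γ M) ^ s)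
    (hk : ∀ ℓ : {x // x ∈ M}, psh R (kil ℓ) x ∈ aug R (Prd Γ M) ^ (s + 1)) (hM : s < M.card) :
    x ∈ aug R (Prd Γ M) ^ (s + 1) := by
  classical
  have h1 : ∀ P : Finset {x // x ∈ M}, ∃ k ∈ Ksp R s P, x - k ∈ aug R (Prd Γ M) ^ (s + 1) := by
    intro P
    induction P using Finset.induction_on with
    | empty => exact pow_le s x hx
    | insert ℓ P _ ih =>
      obtain ⟨k, hk1, hk2⟩ := ih
      refine ⟨k - psh R (kil ℓ) k, Ksp_kil ℓ hk1, ?_⟩
      have h2 : x - (k - psh R (kil ℓ) k) =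
          (x - k) - psh R (kil ℓ) (x - k) + psh R (kil ℓ) x := by
        rw [map_sub]
        ring
      rw [h2]
      exact add_mem (sub_mem hk2 (psh_mem _ hk2)) (hk ℓ)
  obtain ⟨k, hk1, hk2⟩ := h1 Finset.univ
  have h2 : k = 0 := Ksp_zero (by rwa [Finset.card_univ, Fintype.card_coe]) hk1
  rwa [h2, sub_zero] at hk2

theorem res_comp {M'' M' M : Finset ℕ} (h : M' ⊆ M) (h' : M'' ⊆ M') :
    (res (Γ := Γ) h').comp (res h) = res (h'.trans h) := rfl

theorem res_refl (M : Finset ℕ) : res (Γ := Γ) (Finset.Subset.refl M) = MonoidHom.id _ := rfl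

/-- **Detection by few primes** -/
theorem detect (r : ℕ) (M : Finset ℕ) (x : MonoidAlgebra R (Prd Γ M))
    (h : ∀ (M' : Finset ℕ) (hM : M' ⊆ M), M'.card ≤ r →
      psh R (res hM) x ∈ aug R (Prd Γ M') ^ (r + 1)) :
    x ∈ aug R (Prd Γ M) ^ (r + 1) := by
  induction hn : M.card using Nat.strong_induction_on generalizing M with
  | _ n ih =>
    by_cases hr : M.card ≤ r
    · have h1 := h M (Finset.Subset.refl M) hr
      rwa [res_refl, psh_id] at h1
    push Not at hr
    have hk : ∀ ℓ : {x // x ∈ M}, psh R (kil ℓ) x ∈ aug R (Prd Γ M) ^ (r + 1) := by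
      intro ℓ
      unfold kil
      rw [psh_comp]
      refine psh_mem _ (ih (M.erase ℓ.1).card ?_ (M.erase ℓ.1) _ (fun M' hM hM' => ?_) rfl)
      · rw [← hn]
        exact Finset.card_erase_lt_of_mem ℓ.2
      · rw [← psh_comp, res_comp]
        exact h M' _ hM'
    have hs : ∀ s, s ≤ r + 1 → x ∈ aug R (Prd Γ M) ^ s := by
      intro s
      induction s with
      | zero => intro _; simp
      | succ s ihs =>
        intro hs
        exact many (ihs (by omega)) (fun ℓ => Ideal.pow_le_pow_right hs (hk ℓ)) (by omega)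
    exact hs (r + 1) le_rfl

end lev

section gl
variable {R : Type} [CommRing R] {p : ℕ}

theorem rs_comp {M'' M' M : Finset ℕ} (h : M' ⊆ M) (h' : M'' ⊆ M') :
    (rs p h').comp (rs p h) = rs p (h'.trans h) := rfl

theorem rs_refl (M : Finset ℕ) : rs p (Finset.Subset.refl M) = MonoidHom.id _ := rfl

theorem detect_gl (r : ℕ) (M : Finset ℕ) (x : MonoidAlgebra R (Gl p M))
    (h : ∀ (M' : Finset ℕ) (hM : M' ⊆ M), M'.card ≤ r →
      psh R (rs p hM) x ∈ aug R (Gl p M') ^ (r + 1)) :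
    x ∈ aug R (Gl p M) ^ (r + 1) :=
  detect (Γ := fun ℓ => (ZMod ℓ)ˣ ⧸ prm p (ZMod ℓ)ˣ) r M x h

end gl

end Pool.Agent.Q280.MT
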