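import Pool.Agent.Q280.MT.Grp

/-!
# The `p`-part of the Mazur-Tate conjecture: reduction to few primes
-/

set_option autoImplicit false

namespace Pool.Agent.Q280.MT

section
variable {R : Type} [CommRing R] {G C : Type} [CommGroup G] [CommGroup C] {r : ℕ}

theorem reg_mem (g : Fin r → Fin r → C) : reg R g ∈ aug R C ^ r := by
  unfold reg
  rw [Matrix.det_apply]
  refine sum_mem fun σ _ => ?_
  have h1 : ∏ i, (Matrix.of fun i j : Fin r => MonoidAlgebra.of R C (g i j) - 1) (σ i) i ∈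
      aug R C ^ r := by
    have h2 := Ideal.prod_mem_prod (s := (Finset.univ : Finset (Fin r)))
      (I := fun _ => aug R C)
      (x := fun i => (Matrix.of fun i j : Fin r => MonoidAlgebra.of R C (g i j) - 1) (σ i) i)
      fun i _ => of_sub_one_mem _
    rwa [Finset.prod_const, Finset.card_univ, Fintype.card_fin] at h2
  rcases Int.units_eq_one_or (Equiv.Perm.sign σ) with h | h
  · rw [h, one_smul]
    exact h1
  · rw [h, Units.neg_smul, one_smul]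
    exact neg_mem h1

theorem psh_reg (φ : G →* C) (g : Fin r → Fin r → G) :
    psh R φ (reg R g) = reg R fun i j => φ (g i j) := by
  unfold reg
  rw [AlgHom.map_det]
  congr 1
  refine Matrix.ext fun i j => ?_
  change psh R φ (MonoidAlgebra.of R G (g i j) - 1) = MonoidAlgebra.of R C (φ (g i j)) - 1
  rw [map_sub, map_one, psh_of]

end

variable {p : ℕ} [hp : Fact p.Prime] {a : ℕ → ℤ} {A : Set ℕ} {r : ℕ} (D : Modular p a A r)

/-- the difference of the two sides -/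
noncomputable def dlt (M : Finset ℕ) : MonoidAlgebra ℤ_[p] (Gl p M) :=
  D.θ M - D.c M • reg ℤ_[p] (D.h M)

theorem holds_iff (M : Finset ℕ) {C : Type} [CommGroup C] (φ : Gl p M →* C) :
    D.Holds M φ ↔ psh ℤ_[p] φ (dlt D M) ∈ aug ℤ_[p] C ^ (r + 1) := by
  have h1 : psh ℤ_[p] φ (dlt D M) =
      psh ℤ_[p] φ (D.θ M) - D.c M • reg ℤ_[p] fun i j => φ (D.h M i j) := by
    unfold dlt
    rw [map_sub, map_smul, psh_reg]
  rw [h1]
  refine ⟨fun h => h.2, fun h => ⟨?_, h⟩⟩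
  have h2 : psh ℤ_[p] φ (D.θ M) =
      (psh ℤ_[p] φ (D.θ M) - D.c M • reg ℤ_[p] fun i j => φ (D.h M i j)) +
        D.c M • reg ℤ_[p] fun i j => φ (D.h M i j) := by ring
  rw [h2]
  refine add_mem (Ideal.pow_le_pow_right (Nat.le_succ r) h) ?_
  exact Submodule.smul_of_tower_mem _ _ (reg_mem _)

theorem push (M : Finset ℕ) {C : Type} [CommGroup C] (φ : Gl p M →* C)
    (h : D.Holds M (MonoidHom.id _)) : D.Holds M φ := by
  rw [holds_iff, psh_id] at h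
  rw [holds_iff]
  exact psh_mem φ h

theorem unit_int {x : ℤ} (h : ¬ (p : ℤ) ∣ x) : IsUnit (x : ℤ_[p]) := by
  rw [PadicInt.isUnit_iff]
  by_contra h1
  have h2 : ‖(x : ℤ_[p])‖ < 1 := lt_of_le_of_ne (PadicInt.norm_le_one _) h1
  exact h ((PadicInt.norm_int_lt_one_iff_dvd x).1 h2)

omit hp in
theorem exists_frb {M : Finset ℕ} {ℓ : ℕ} (hℓ : ℓ.Prime) (hM : ∀ q ∈ M, q.Prime) (h : ℓ ∉ M) :
    ∃ σ : Gl p M, IsFrb p M ℓ σ := by
  have h1 : ∀ q : {x // x ∈ M}, ℓ.Coprime q.1 := fun q =>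
    (Nat.coprime_primes hℓ (hM _ q.2)).2 fun h2 => h (h2 ▸ q.2)
  exact ⟨fun q => QuotientGroup.mk (ZMod.unitOfCoprime ℓ (h1 q)), fun q =>
    ⟨ZMod.unitOfCoprime ℓ (h1 q), ZMod.coe_unitOfCoprime ℓ (h1 q), rfl⟩⟩

/-- one prime -/
theorem step (M : Finset ℕ) (hM : ∀ q ∈ M, q ∈ A) (ℓ : ℕ) (hℓ : ℓ ∈ M) :
    ∃ u : MonoidAlgebra ℤ_[p] (Gl p (M.erase ℓ)), IsUnit (augm ℤ_[p] _ u) ∧
      psh ℤ_[p] (rs p (M.erase_subset ℓ)) (dlt D M) - u * dlt D (M.erase ℓ) ∈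
        aug ℤ_[p] _ ^ (r + 1) := by
  obtain ⟨h1, h2, h3⟩ := D.prime ℓ (hM ℓ hℓ)
  obtain ⟨σ, hσ⟩ := exists_frb (p := p) (M := M.erase ℓ) h1
    (fun q hq => (D.prime q (hM q (Finset.mem_of_mem_erase hq))).1) (Finset.notMem_erase _ _)
  have hu : IsUnit ((ℓ : ℕ) : ℤ_[p]) := by
    have h4 : ¬ (p : ℤ) ∣ (ℓ : ℤ) := by
      intro h5
      have h6 : p ∣ ℓ := by exact_mod_cast h5
      exact h2 ((Nat.prime_dvd_prime_iff_eq hp.out h1).1 h6).symm
    have h5 := unit_int h4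
    rwa [Int.cast_natCast] at h5
  obtain ⟨v, hv⟩ := hu
  have hvi : ((v⁻¹ : ℤ_[p]ˣ) : ℤ_[p]) * (ℓ : ℤ_[p]) = 1 := by rw [← hv, Units.inv_mul]
  let e : MonoidAlgebra ℤ_[p] (Gl p (M.erase ℓ)) := eul ℤ_[p] (ℓ : ℤ_[p]) (a ℓ : ℤ_[p]) σ
  let u : MonoidAlgebra ℤ_[p] (Gl p (M.erase ℓ)) := ((v⁻¹ : ℤ_[p]ˣ) : ℤ_[p]) • e
  have he : augm ℤ_[p] _ e = -((ℓ : ℤ_[p]) + 1 - (a ℓ : ℤ_[p])) := by
    change augm ℤ_[p] _ (-((ℓ : ℤ_[p]) • MonoidAlgebra.of ℤ_[p] _ σ - (a ℓ : ℤ_[p]) • 1 +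
        MonoidAlgebra.of ℤ_[p] _ σ⁻¹)) = _
    rw [map_neg, map_add, map_sub, map_smul, map_smul, augm_of, augm_of, map_one, smul_eq_mul,
      smul_eq_mul]
    ring
  have hθ : psh ℤ_[p] (rs p (M.erase_subset ℓ)) (D.θ M) = u * D.θ (M.erase ℓ) := by
    have h4 := D.norm M hM ℓ hℓ σ hσ
    have h5 : psh ℤ_[p] (rs p (M.erase_subset ℓ)) (D.θ M) = ((v⁻¹ : ℤ_[p]ˣ) : ℤ_[p]) •
        ((ℓ : ℤ_[p]) • psh ℤ_[p] (rs p (M.erase_subset ℓ)) (D.θ M)) := by
      rw [smul_smul, hvi, one_smul]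
    rw [h5, h4]
    exact (smul_mul_assoc _ _ _).symm
  have hc : D.c M = augm ℤ_[p] _ u * D.c (M.erase ℓ) := by
    have h4 : (ℓ : ℤ_[p]) * D.c M = -((ℓ : ℤ_[p]) + 1 - (a ℓ : ℤ_[p])) * D.c (M.erase ℓ) :=
      D.const M hM ℓ hℓ
    have h5 : D.c M = ((v⁻¹ : ℤ_[p]ˣ) : ℤ_[p]) * ((ℓ : ℤ_[p]) * D.c M) := by
      rw [← mul_assoc, hvi, one_mul]
    rw [h5, h4]
    change _ = augm ℤ_[p] _ (((v⁻¹ : ℤ_[p]ˣ) : ℤ_[p]) • e) * _
    rw [map_smul, he, smul_eq_mul]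
    ring
  refine ⟨u, ?_, ?_⟩
  · change IsUnit (augm ℤ_[p] _ (((v⁻¹ : ℤ_[p]ˣ) : ℤ_[p]) • e))
    rw [map_smul, he, smul_eq_mul]
    refine (v⁻¹).isUnit.mul ?_
    have h4 : IsUnit (((ℓ + 1 - a ℓ : ℤ) : ℤ_[p])) := unit_int h3
    push_cast at h4
    exact h4.neg
  · have hr : psh ℤ_[p] (rs p (M.erase_subset ℓ)) (reg ℤ_[p] (D.h M)) =
        reg ℤ_[p] (D.h (M.erase ℓ)) := by
      rw [psh_reg]
      congr 1
      funext i j
      exact D.pair M hM ℓ hℓ i j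
    have h4 : psh ℤ_[p] (rs p (M.erase_subset ℓ)) (dlt D M) - u * dlt D (M.erase ℓ) =
        D.c (M.erase ℓ) • ((u - algebraMap ℤ_[p] _ (augm ℤ_[p] _ u)) *
          reg ℤ_[p] (D.h (M.erase ℓ))) := by
      unfold dlt
      rw [map_sub, map_smul, hθ, hr, hc]
      simp only [Algebra.smul_def, map_mul]
      ring
    rw [h4]
    refine Submodule.smul_of_tower_mem _ _ ?_
    rw [pow_succ']
    exact Ideal.mul_mem_mul (sub_augm_mem u) (reg_mem _)

/-- several primes -/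
theorem steps {M' : Finset ℕ} (M : Finset ℕ) (hM : ∀ q ∈ M, q ∈ A) (h : M' ⊆ M) :
    ∃ u : MonoidAlgebra ℤ_[p] (Gl p M'), IsUnit (augm ℤ_[p] _ u) ∧
      psh ℤ_[p] (rs p h) (dlt D M) - u * dlt D M' ∈ aug ℤ_[p] _ ^ (r + 1) := by
  induction hn : M.card using Nat.strong_induction_on generalizing M with
  | _ n ih =>
    by_cases hMM : M ⊆ M'
    · obtain rfl := Finset.Subset.antisymm h hMM
      refine ⟨1, by rw [map_one]; exact isUnit_one, ?_⟩
      rw [rs_refl, psh_id, one_mul, sub_self]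
      exact zero_mem _
    · obtain ⟨ℓ, hℓ, hℓ'⟩ := Finset.not_subset.1 hMM
      have h1 : M' ⊆ M.erase ℓ := fun q hq =>
        Finset.mem_erase.2 ⟨fun h2 => hℓ' (h2 ▸ hq), h hq⟩
      obtain ⟨u₁, hu₁, h₁⟩ := ih (M.erase ℓ).card (by
        rw [← hn]
        exact Finset.card_erase_lt_of_mem hℓ) (M.erase ℓ)
        (fun q hq => hM q (Finset.mem_of_mem_erase hq)) h1 rfl
      obtain ⟨u₂, hu₂, h₂⟩ := step D M hM ℓ hℓ
      refine ⟨psh ℤ_[p] (rs p h1) u₂ * u₁, ?_, ?_⟩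
      · rw [map_mul, augm_psh]
        exact hu₂.mul hu₁
      · have h3 : psh ℤ_[p] (rs p h) (dlt D M) =
            psh ℤ_[p] (rs p h1) (psh ℤ_[p] (rs p (M.erase_subset ℓ)) (dlt D M)) := by
          rw [← psh_comp, rs_comp]
        have h4 : psh ℤ_[p] (rs p h) (dlt D M) - psh ℤ_[p] (rs p h1) u₂ * u₁ * dlt D M' =
            psh ℤ_[p] (rs p h1) (psh ℤ_[p] (rs p (M.erase_subset ℓ)) (dlt D M) -
              u₂ * dlt D (M.erase ℓ)) + psh ℤ_[p] (rs p h1) u₂ *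
              (psh ℤ_[p] (rs p h1) (dlt D (M.erase ℓ)) - u₁ * dlt D M') := by
          rw [h3, map_sub, map_mul]
          ring
        rw [h4]
        exact add_mem (psh_mem _ h₂) (Ideal.mul_mem_left _ _ h₁)

/-- the statement depends on the field only -/
theorem factor {M' : Finset ℕ} (M : Finset ℕ) (hM : ∀ q ∈ M, q ∈ A) (h : M' ⊆ M) {C : Type}
    [CommGroup C] (φ : Gl p M' →* C) : D.Holds M (φ.comp (rs p h)) ↔ D.Holds M' φ := by
  obtain ⟨u, hu, h1⟩ := steps D M hM h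
  rw [holds_iff, holds_iff, psh_comp]
  have h2 : psh ℤ_[p] φ (psh ℤ_[p] (rs p h) (dlt D M)) =
      psh ℤ_[p] φ (psh ℤ_[p] (rs p h) (dlt D M) - u * dlt D M') +
        psh ℤ_[p] φ u * psh ℤ_[p] φ (dlt D M') := by
    rw [map_sub, map_mul]
    ring
  rw [h2]
  constructor
  · intro h3
    have h4 := sub_mem h3 (psh_mem φ h1)
    rw [add_sub_cancel_left] at h4
    exact cancel_unit (by rwa [augm_psh]) h4
  · intro h3
    exact add_mem (psh_mem φ h1) (Ideal.mul_mem_left _ _ h3)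

theorem few_id (h : D.FewPrimes) (M : Finset ℕ) (hM : ∀ q ∈ M, q ∈ A) (hr : M.card ≤ r) :
    D.Holds M (MonoidHom.id _) := by
  have key : ∀ (n : ℕ) (M' : Finset ℕ) (hM' : M' ⊆ M) (φ : Gl p M' →* Gl p M), M'.card = n →
      φ.comp (rs p hM') = MonoidHom.id _ → D.Holds M (MonoidHom.id _) := by
    intro n
    induction n using Nat.strong_induction_on with
    | _ n ih =>
      intro M' hM' φ hn hφ
      by_cases hc : Conductor M' (MonoidHom.id (Gl p M'))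
      · have h1 := h M' (fun q hq => hM q (hM' hq)) ((Finset.card_le_card hM').trans hr) hc
        have h2 := (factor D M hM hM' φ).2 (push D M' φ h1)
        rwa [hφ] at h2
      · unfold Conductor at hc
        push Not at hc
        obtain ⟨M'', hM'', ψ, hψ⟩ := hc
        refine ih M''.card (by rw [← hn]; exact Finset.card_lt_card hM'') M'' (hM''.1.trans hM')
          (φ.comp ψ) rfl ?_
        have h1 : (φ.comp ψ).comp (rs p (hM''.1.trans hM')) =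
            (φ.comp (ψ.comp (rs p hM''.1))).comp (rs p hM') := rfl
        rw [h1, ← hψ, MonoidHom.comp_id, hφ]
  exact key M.card M (Finset.Subset.refl M) (MonoidHom.id _) rfl rfl

/-- **Few primes suffice** -/
theorem few_iff : D.AllFields ↔ D.FewPrimes := by
  constructor
  · intro h M hM _ hc
    exact h M hM (Gl p M) (MonoidHom.id _) Function.surjective_id hc
  · intro h M hM C _ φ _ _
    refine push D M φ ?_
    rw [holds_iff, psh_id]
    refine detect_gl r M _ fun M' hM' hr => ?_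
    have h1 := few_id D h M' (fun q hq => hM q (hM' hq)) hr
    have h2 := (factor D M hM hM' (MonoidHom.id _)).2 h1
    rw [MonoidHom.id_comp, holds_iff] at h2
    exact h2

end Pool.Agent.Q280.MT
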